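import Pool.Agent.K3h30.RS.Stm

/-!
# Project RS, brick DLOG: a faithful character of the residue field group
-/

set_option autoImplicit false

open NumberField IsDedekindDomain

noncomputable section

namespace Pool.Agent.K3h44.RS

open Pool.Agent.K3h30.RS

/-- the homomorphism `m ↦ m / n` -/
theorem exists_zmod (n : ℕ) (hn : n ≠ 0) : ∃ f : ZMod n →+ QZ, Function.Injective f := by
  have hnQ : (n : ℚ) ≠ 0 := by exact_mod_cast hn
  have key : ∀ m : ℤ, zmultiplesHom QZ (((1 / n : ℚ)) : QZ) m = (((m / n : ℚ)) : QZ) := by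
    intro m
    rw [zmultiplesHom_apply, ← AddCircle.coe_zsmul]
    congr 1
    rw [zsmul_eq_mul]
    ring
  have h0 : zmultiplesHom QZ (((1 / n : ℚ)) : QZ) n = 0 := by
    rw [key, AddCircle.coe_eq_zero_iff]
    refine ⟨1, ?_⟩
    rw [one_smul]
    field_simp
    push_cast
    rfl
  refine ⟨ZMod.lift n ⟨_, h0⟩, ?_⟩
  rw [ZMod.lift_injective]
  intro m hm
  change zmultiplesHom QZ (((1 / n : ℚ)) : QZ) m = 0 at hm
  rw [key, AddCircle.coe_eq_zero_iff] at hm
  obtain ⟨k, hk⟩ := hm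
  rw [zsmul_eq_mul, mul_one, eq_div_iff hnQ] at hk
  rw [ZMod.intCast_zmod_eq_zero_iff_dvd]
  exact ⟨k, by exact_mod_cast (by rw [← hk]; ring : (m : ℚ) = n * k)⟩

theorem t_DLOG : S_DLOG := by
  intro H _ _ w
  have hmax := w.isMaximal
  let _ : Field (𝓞 H ⧸ w.asIdeal) := Ideal.Quotient.field w.asIdeal
  have hfin : Finite (𝓞 H ⧸ w.asIdeal) := Ideal.finiteQuotientOfFreeOfNeBot w.asIdeal w.ne_bot
  have hcard : Nat.card (𝓞 H ⧸ w.asIdeal) = Ideal.absNorm w.asIdeal := by
    rw [Ideal.absNorm_apply, Submodule.cardQuot_apply]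
  -- representatives
  have hrep : ∀ x : unitsAt w, ∃ a : 𝓞 H, w.valuation H ((a : H) - ((x : Hˣ) : H)) < 1 := by
    intro x
    have hx : w.valuation H ((x : Hˣ) : H) = 1 := x.2
    exact w.exists_valuation_sub_lt_of_integer hx.le 1
  choose rep hrep using hrep
  have hmk : ∀ a b : 𝓞 H, Ideal.Quotient.mk w.asIdeal a = Ideal.Quotient.mk w.asIdeal b ↔
      w.valuation H ((a : H) - (b : H)) < 1 := by
    intro a b
    have e : ((a - b : 𝓞 H) : H) = (a : H) - (b : H) := RingHom.map_sub (algebraMap (𝓞 H) H) a b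
    rw [Ideal.Quotient.mk_eq_mk_iff_sub_mem, ← e]
    exact (w.valuation_lt_one_iff_mem (K := H) (a - b)).symm
  have hle : ∀ a : 𝓞 H, w.valuation H (a : H) ≤ 1 := fun a => w.valuation_le_one (K := H) a
  let φ : unitsAt w →* (𝓞 H ⧸ w.asIdeal) :=
    { toFun := fun x => Ideal.Quotient.mk w.asIdeal (rep x)
      map_one' := by
        have h := hrep 1
        rw [← map_one (Ideal.Quotient.mk w.asIdeal), hmk]
        simpa using h
      map_mul' := by
        intro x y
        rw [← map_mul, hmk]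
        have h1 := hrep x
        have h2 := hrep y
        have h3 := hrep (x * y)
        have hx : w.valuation H ((x : Hˣ) : H) = 1 := x.2
        have e : ((rep (x * y) : 𝓞 H) : H) - ((rep x * rep y : 𝓞 H) : H) =
            (((rep (x * y) : 𝓞 H) : H) - (((x * y : unitsAt w) : Hˣ) : H)) -
            ((((rep x : 𝓞 H) : H) - ((x : Hˣ) : H)) * ((rep y : 𝓞 H) : H) +
              ((x : Hˣ) : H) * (((rep y : 𝓞 H) : H) - ((y : Hˣ) : H))) := by
          push_cast
          ring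
        rw [e]
        refine lt_of_le_of_lt (Valuation.map_sub _ _ _) (max_lt h3 ?_)
        refine lt_of_le_of_lt (Valuation.map_add _ _ _) (max_lt ?_ ?_)
        · rw [map_mul]
          exact lt_of_le_of_lt (mul_le_of_le_one_right' (hle _)) h1
        · rw [map_mul, hx, one_mul]
          exact h2 }
  let ψ : unitsAt w →* (𝓞 H ⧸ w.asIdeal)ˣ := φ.toHomUnits
  have hψ : ∀ x, ψ x = 1 ↔ w.valuation H (((x : Hˣ) : H) - 1) < 1 := by
    intro x
    have h1 : ψ x = 1 ↔ φ x = 1 := by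
      rw [← Units.val_inj]
      rfl
    have h2 : φ x = Ideal.Quotient.mk w.asIdeal (rep x) := rfl
    rw [h1, h2, ← map_one (Ideal.Quotient.mk w.asIdeal), hmk]
    have h3 := hrep x
    have h4 : w.valuation H (((x : Hˣ) : H) - ((rep x : 𝓞 H) : H)) < 1 := by
      rw [Valuation.map_sub_swap]
      exact h3
    constructor
    · intro h
      have e : ((x : Hˣ) : H) - 1 = (((x : Hˣ) : H) - ((rep x : 𝓞 H) : H)) +
          (((rep x : 𝓞 H) : H) - ((1 : 𝓞 H) : H)) := by push_cast; ring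
      rw [e]
      exact lt_of_le_of_lt (Valuation.map_add _ _ _) (max_lt h4 h)
    · intro h
      have e : ((rep x : 𝓞 H) : H) - ((1 : 𝓞 H) : H) = (((rep x : 𝓞 H) : H) - ((x : Hˣ) : H)) +
          (((x : Hˣ) : H) - 1) := by push_cast; ring
      rw [e]
      exact lt_of_le_of_lt (Valuation.map_add _ _ _) (max_lt h3 h)
  -- the group of units
  have hcyc : IsCyclic (𝓞 H ⧸ w.asIdeal)ˣ := inferInstance
  have hn0 : Nat.card (𝓞 H ⧸ w.asIdeal)ˣ ≠ 0 := Nat.card_pos.ne'
  obtain ⟨f, hf⟩ := exists_zmod (Nat.card (𝓞 H ⧸ w.asIdeal)ˣ) hn0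
  let e : Additive (𝓞 H ⧸ w.asIdeal)ˣ ≃+ ZMod (Nat.card (𝓞 H ⧸ w.asIdeal)ˣ) :=
    (MulEquiv.toAdditive (zmodCyclicMulEquiv hcyc).symm).trans
      (AddEquiv.additiveMultiplicative _)
  refine ⟨(f.comp e.toAddMonoidHom).comp (MonoidHom.toAdditive ψ), fun x => ?_, fun x => ?_⟩
  · rw [← hψ]
    have h1 : ((f.comp e.toAddMonoidHom).comp (MonoidHom.toAdditive ψ)) (Additive.ofMul x) =
        f (e (Additive.ofMul (ψ x))) := rfl
    rw [h1]
    constructor
    · intro h
      have h2 : e (Additive.ofMul (ψ x)) = 0 := hf (by rw [h, map_zero])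
      have h3 : Additive.ofMul (ψ x) = 0 := e.injective (by rw [h2, map_zero])
      exact h3
    · intro h
      rw [h]
      have : (Additive.ofMul (1 : (𝓞 H ⧸ w.asIdeal)ˣ)) = 0 := rfl
      rw [this, map_zero, map_zero]
  · rw [← map_nsmul]
    have h1 : ((f.comp e.toAddMonoidHom).comp (MonoidHom.toAdditive ψ))
        ((Ideal.absNorm w.asIdeal - 1) • x) =
        f (e (Additive.ofMul (ψ (Additive.toMul x ^ (Ideal.absNorm w.asIdeal - 1))))) := rfl
    rw [h1, map_pow]
    have h2 : Ideal.absNorm w.asIdeal - 1 = Nat.card (𝓞 H ⧸ w.asIdeal)ˣ := by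
      rw [← hcard, Nat.card_units]
    rw [h2, pow_card_eq_one']
    have : (Additive.ofMul (1 : (𝓞 H ⧸ w.asIdeal)ˣ)) = 0 := rfl
    rw [this, map_zero, map_zero]

theorem t_FROBU : S_FROBU := by
  intro F H G _ _ _ _ _ _ _ _ _ v γ hγ w hw x hx
  obtain ⟨a, ⟨b, hb⟩, hab⟩ := w.exists_primeCompl_mul_eq_of_integer (x : H) hx.le
  have hb1 : w.valuation H (b : H) = 1 := (w.valuation_eq_one_iff_notMem (K := H)).2 hb
  have ha1 : w.valuation H (a : H) ≤ 1 := w.valuation_le_one (K := H) a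
  set q := Ideal.absNorm v.asIdeal with hq
  have h1 := hγ w hw a
  have h2 := hγ w hw b
  rw [← hq] at h1 h2
  have hbq : w.valuation H ((b : H) ^ q) = 1 := by rw [map_pow, hb1, one_pow]
  have hγb : w.valuation H (γ • (b : H)) = 1 := by
    have h3 := Valuation.map_sub_eq_of_lt_right (w.valuation H)
      (x := γ • (b : H) - (b : H) ^ q) (y := -(b : H) ^ q) (by rw [Valuation.map_neg, hbq]; exact h2)
    rw [sub_neg_eq_add, sub_add_cancel, Valuation.map_neg, hbq] at h3
    exact h3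
  have hb0 : (b : H) ≠ 0 := fun h => by rw [h, map_zero] at hb1; exact zero_ne_one hb1
  have hγb0 : γ • (b : H) ≠ 0 := fun h => by rw [h, map_zero] at hγb; exact zero_ne_one hγb
  have hxe : (x : H) = (a : H) / (b : H) := by
    rw [eq_div_iff hb0]
    exact hab
  have hγx : γ • (x : H) = γ • (a : H) / γ • (b : H) := by
    rw [hxe, smul_div₀']
  have e : γ • (x : H) - (x : H) ^ q = ((γ • (a : H) - (a : H) ^ q) * (b : H) ^ q -
      (a : H) ^ q * (γ • (b : H) - (b : H) ^ q)) / (γ • (b : H) * (b : H) ^ q) := by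
    rw [hγx, hxe, div_pow]
    have hbq0 : (b : H) ^ q ≠ 0 := pow_ne_zero _ hb0
    field_simp
    ring
  rw [e, map_div₀, map_mul (w.valuation H) (γ • (b : H)), hγb, hbq, one_mul, div_one]
  refine lt_of_le_of_lt (Valuation.map_sub _ _ _) (max_lt ?_ ?_)
  · rw [map_mul, hbq, mul_one]
    exact h1
  · rw [map_mul]
    refine lt_of_le_of_lt (mul_le_of_le_one_left' ?_) h2
    rw [map_pow]
    exact pow_le_one' ha1 q

end Pool.Agent.K3h44.RS
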